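import Pool.Agent.Helper46.NU.Names

/-!
# MP_1fe1ca_lc, packet CDN: membership in the name of a code
-/

open MeasureTheory Filter Topology Set

namespace NU.PkCDN

open Pool.Agent.Helper97.Ku

theorem cdn (_ehom : G_EHOM) (fn1 : G_FN1) : G_CDN := by
  intro S L _ e _ F _
  refine ⟨fun t => rfl, fun t => ?_⟩
  have h : (fsN t : BSet L).mem (cdN e F) =
      ⨆ t₀ : Finset ℕ, (e {z | t₀ ∈ F z} ⊓ (fsN t : BSet L).eq (fsN t₀)) := rfl
  rw [h]
  have h3 := (fn1 L).2.2.1
  apply le_antisymm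
  · refine iSup_le fun t₀ => ?_
    rw [h3 t t₀]
    by_cases ht : t = t₀
    · subst ht
      exact inf_le_left
    · rw [bo_false ht, inf_bot_eq]
      exact bot_le
  · refine le_trans ?_ (le_iSup _ t)
    rw [h3 t t, bo_true rfl, inf_top_eq]

end NU.PkCDN
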