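import Pool.Agent.Helper46.NU.Goals1

/-!
# MP_1fe1ca_lc, packet CYL: localization of nonmeager sets
-/

open MeasureTheory Filter Topology Set
open scoped ENNReal

namespace NU.PkCYL

theorem isOpen_agr (S : Sys) (F : Finset (S.C × ℕ)) (φ₀ : Ph S) :
    IsOpen {φ : Ph S | Agr F φ₀ φ} := by
  have h : {φ : Ph S | Agr F φ₀ φ} = ⋂ p ∈ F, {φ : Ph S | φ p = φ₀ p} := by
    ext φ
    simp only [Agr, Set.mem_iInter]
    rfl
  rw [h]
  refine isOpen_biInter_finset fun p _ => ?_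
  have hc : Continuous fun φ : Ph S => φ p := continuous_apply p
  exact (isOpen_discrete ({φ₀ p} : Set (CF S))).preimage hc

theorem cyl : G_CYL := by
  classical
  intro S E hE F₀ φ₀ hne
  have hE' : BaireMeasurableSet (E ∩ {φ : Ph S | Agr F₀ φ₀ φ}) :=
    hE.inter (isOpen_agr S F₀ φ₀).baireMeasurableSet
  obtain ⟨U, hUo, hEq⟩ := hE'.residualEq_isOpen
  by_cases h : ∃ φ₁ ∈ U, Agr F₀ φ₀ φ₁
  · obtain ⟨φ₁, hφ₁U, hA⟩ := h
    obtain ⟨I, u, hu, hsub⟩ := isOpen_pi_iff.1 hUo φ₁ hφ₁U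
    refine ⟨F₀ ∪ I, φ₁, Finset.subset_union_left, hA, ?_⟩
    filter_upwards [hEq.mem_iff] with φ hφ hAg
    have hφU : φ ∈ U := by
      apply hsub
      intro p hp
      rw [hAg p (Finset.mem_union_right _ hp)]
      exact (hu p hp).2
    exact (hφ.2 hφU).1
  · exfalso
    apply hne
    filter_upwards [hEq.mem_iff] with φ hφ hA hEφ
    exact h ⟨φ, hφ.1 ⟨hEφ, hA⟩, hA⟩

end NU.PkCYL
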